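import Pool.Agent.LCL89.Main.Defs
import Pool.Agent.LCL89.BD.Stmt

set_option autoImplicit false

/-!
# The game lemma: the space `XX`, the actions, the statements
-/

namespace Pool.Agent.LCL89.ML

open Monoid

/-- the group `Z/3`, written multiplicatively -/
abbrev A3 : Type := Multiplicative (ZMod 3)

section Defs

variable (Idx G : Type) [Group G]

/-- items: `It true` = coordinates of Gert's part, `It false` = coordinates of Alice's part -/
inductive It : Bool → Type
  | dig (i : Idx) : It true
  | subG (g : {g : G // g ≠ 1}) (a : It false) : It true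
  | o : It false
  | subA (j : {j : ZMod 3 // j ≠ 0}) (b : It true) : It false

variable {Idx G}

/-- the set of values of an item -/
def It.val (D : Idx → Type) : {b : Bool} → It Idx G b → Type
  | _, .dig i => D i
  | _, .subG _ a => a.val D
  | _, .o => ZMod 3
  | _, .subA _ b => b.val D

instance (D : Idx → Type) {b : Bool} (i : It Idx G b) : TopologicalSpace (i.val D) := ⊥

instance (D : Idx → Type) {b : Bool} (i : It Idx G b) : DiscreteTopology (i.val D) := ⟨rfl⟩

variable (G) in
/-- Gert's part (`b = true`) and Alice's part (`b = false`) -/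
abbrev PP (D : Idx → Type) (b : Bool) : Type := ∀ i : It Idx G b, i.val D

variable (G) in
/-- the space on which `Z/3 * G` acts -/
abbrev XX (D : Idx → Type) : Type := PP G D true × PP G D false

open Classical in
/-- the space seen by `G` -/
noncomputable def viewG (D : Idx → Type) : XX G D ≃ (∀ i, D i) × (G → PP G D false) where
  toFun x := (fun i => x.1 (.dig i), fun g => if h : g = 1 then x.2 else fun a => x.1 (.subG ⟨g, h⟩ a))
  invFun w := (fun i => match i with
    | .dig i => w.1 i
    | .subG g a => w.2 g a, w.2 1)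
  left_inv x := by
    refine Prod.ext (funext fun i => ?_) ?_
    · cases i with
      | dig i => rfl
      | subG g a => simp [g.2]
    · simp
  right_inv w := by
    refine Prod.ext rfl (funext fun g => ?_)
    by_cases h : g = 1
    · subst h; simp
    · simp [h]

/-- the space seen by `Z/3` -/
def viewA (D : Idx → Type) : XX G D ≃ ZMod 3 × (ZMod 3 → PP G D true) where
  toFun x := (x.2 .o, fun j => if h : j = 0 then x.1 else fun b => x.2 (.subA ⟨j, h⟩ b))
  invFun w := (w.2 0, fun i => match i with
    | .o => w.1
    | .subA j b => w.2 j b)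
  left_inv x := by
    refine Prod.ext ?_ (funext fun i => ?_)
    · simp
    · cases i with
      | o => rfl
      | subA j b => simp [j.2]
  right_inv w := by
    refine Prod.ext rfl (funext fun j => ?_)
    by_cases h : j = 0
    · subst h; simp
    · simp [h]

variable (G) in
/-- the action of `Z/3` -/
def homA (D : Idx → Type) : A3 →* Equiv.Perm (XX G D) where
  toFun k :=
    { toFun := fun x => (viewA D).symm
        ((viewA D x).1 + k.toAdd, fun j => (viewA D x).2 (j - k.toAdd))
      invFun := fun x => (viewA D).symm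
        ((viewA D x).1 - k.toAdd, fun j => (viewA D x).2 (j + k.toAdd))
      left_inv := fun x => by simp
      right_inv := fun x => by simp }
  map_one' := by ext1 x; simp
  map_mul' k l := by
    ext1 x
    simp only [toAdd_mul, Equiv.coe_fn_mk, Equiv.Perm.coe_mul, Function.comp_apply,
      Equiv.apply_symm_apply, EmbeddingLike.apply_eq_iff_eq]
    refine Prod.ext ?_ (funext fun j => ?_)
    · simp only; abel
    · simp only
      rw [show j - (k.toAdd + l.toAdd) = j - k.toAdd - l.toAdd by abel]

/-- the action of `G` -/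
noncomputable def homG (D : Idx → Type) [MulAction G (∀ i, D i)] : G →* Equiv.Perm (XX G D) where
  toFun h :=
    { toFun := fun x => (viewG D).symm (h • (viewG D x).1, fun g => (viewG D x).2 (h⁻¹ * g))
      invFun := fun x => (viewG D).symm (h⁻¹ • (viewG D x).1, fun g => (viewG D x).2 (h * g))
      left_inv := fun x => by simp
      right_inv := fun x => by simp }
  map_one' := by ext1 x; simp
  map_mul' k l := by
    ext1 x
    simp [mul_smul, mul_assoc]

/-- the action of the free product -/
noncomputable instance (D : Idx → Type) [MulAction G (∀ i, D i)] :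
    MulAction (Coprod A3 G) (XX G D) :=
  MulAction.compHom _ (Coprod.lift (homA G D) (homG D))

end Defs

/-- MLS: topology and freeness -/
def StmtMLSpace : Prop :=
  ∀ (Idx : Type) [Countable Idx] (D : Idx → Type) [∀ i, Countable (D i)] [∀ i, Nonempty (D i)]
    [∀ i, TopologicalSpace (D i)] [∀ i, DiscreteTopology (D i)] (G : Type) [Group G] [Countable G]
    [MulAction G (∀ i, D i)], (∀ g : G, Continuous fun y : (∀ i, D i) => g • y) →
    PolishSpace (XX G D) ∧ ZeroDim (XX G D) ∧
      (∀ γ : Coprod A3 G, Continuous fun x : XX G D => γ • x) ∧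
      (∀ (a : A3) (x : XX G D), (Coprod.inl a : Coprod A3 G) • x = x → a = 1) ∧
      (FreeAct G (∀ i, D i) → ∀ (g : G) (x : XX G D), (Coprod.inr g : Coprod A3 G) • x = x → g = 1)

/-- MLG: the game part (from Borel determinacy) -/
def StmtMLGame : Prop :=
  ∀ (Idx : Type) [Countable Idx] (D : Idx → Type) [∀ i, Countable (D i)] [∀ i, Nonempty (D i)]
    [∀ i, TopologicalSpace (D i)] [∀ i, DiscreteTopology (D i)] (G : Type) [Group G] [Countable G]
    [MulAction G (∀ i, D i)], (∀ g : G, Continuous fun y : (∀ i, D i) => g • y) →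
    ∀ W : ZMod 3 → Set (XX G D), (∀ i, @MeasurableSet _ (borel _) (W i)) →
      (∀ (i : ZMod 3) (x : XX G D), ∃ a : A3, (Coprod.inl a : Coprod A3 G) • x ∈ W i) →
      ∀ ι : (∀ i, D i) → ZMod 3, Continuous ι →
        ∃ φ : (∀ i, D i) → XX G D, Continuous φ ∧
          (∀ (g : G) (y : ∀ i, D i), φ (g • y) = (Coprod.inr g : Coprod A3 G) • φ y) ∧
          ∀ y, φ y ∈ W (ι y)

/-- ML: the form used in the assembly -/
def StmtML : Prop :=
  ∀ (Idx : Type) [Countable Idx] (D : Idx → Type) [∀ i, Countable (D i)] [∀ i, Nonempty (D i)]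
    [∀ i, TopologicalSpace (D i)] [∀ i, DiscreteTopology (D i)] (Y : Type) [TopologicalSpace Y]
    (_ : Y ≃ₜ ∀ i, D i) (G : Type) [Group G] [Countable G] [MulAction G Y],
    (∀ g : G, Continuous fun y : Y => g • y) → FreeAct G Y →
    ∃ (X : Type) (_ : TopologicalSpace X) (_ : PolishSpace X) (_ : MulAction (Coprod A3 G) X),
      ZeroDim X ∧
      (∀ γ : Coprod A3 G, Continuous fun x : X => γ • x) ∧
      (∀ (a : A3) (x : X), (Coprod.inl a : Coprod A3 G) • x = x → a = 1) ∧
      (∀ (g : G) (x : X), (Coprod.inr g : Coprod A3 G) • x = x → g = 1) ∧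
      ∀ W : ZMod 3 → Set X, (∀ i, @MeasurableSet _ (borel _) (W i)) →
        (∀ (i : ZMod 3) (x : X), ∃ a : A3, (Coprod.inl a : Coprod A3 G) • x ∈ W i) →
        ∀ ι : Y → ZMod 3, Continuous ι →
          ∃ φ : Y → X, Continuous φ ∧
            (∀ (g : G) (y : Y), φ (g • y) = (Coprod.inr g : Coprod A3 G) • φ y) ∧
            ∀ y, φ y ∈ W (ι y)

end Pool.Agent.LCL89.ML
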