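import Pool.Agent.LCL89.BD.Stmt

set_option autoImplicit false

/-!
# Tools for the game lemma: graded fixed points, games on graded families of items
-/

namespace Pool.Agent.LCL89.ML

open Topology Set

section Fix

variable {S : Type} {D : S → Type}

/-- `Φ x s` only depends on the coordinates of grade `< gr s` -/
def Lower (gr : S → ℕ) (Φ : (∀ s, D s) → (∀ s, D s)) : Prop :=
  ∀ s x x', (∀ t, gr t < gr s → x t = x' t) → Φ x s = Φ x' s

theorem Lower.fix_unique {gr : S → ℕ} {Φ : (∀ s, D s) → (∀ s, D s)} (h : Lower gr Φ)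
    {x x' : ∀ s, D s} (hx : Φ x = x) (hx' : Φ x' = x') : x = x' := by
  have key : ∀ n s, gr s < n → x s = x' s := by
    intro n
    induction n with
    | zero => intro s hs; omega
    | succ n ih =>
      intro s hs
      calc x s = Φ x s := congrFun hx.symm s
        _ = Φ x' s := h s _ _ fun t ht => ih t (by omega)
        _ = x' s := congrFun hx' s
  funext s
  exact key (gr s + 1) s (by omega)

theorem Lower.exists_fix {gr : S → ℕ} {Φ : (∀ s, D s) → (∀ s, D s)} (h : Lower gr Φ)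
    [∀ s, Nonempty (D s)] : ∃ x, Φ x = x := by
  classical
  let F : ∀ s, (∀ t, gr t < gr s → D t) → D s := fun s f =>
    Φ (fun t => if ht : gr t < gr s then f t ht else Classical.arbitrary _) s
  let x : ∀ s, D s := (measure gr).wf.fix F
  have hx : ∀ s, x s = F s (fun t _ => x t) := fun s => WellFounded.fix_eq _ _ _
  refine ⟨x, funext fun s => ?_⟩
  rw [hx s]
  refine h s _ _ fun t ht => ?_
  simp [ht]

/-- the fixed point depends continuously on the parameter -/
theorem fix_continuous {Y : Type} [TopologicalSpace Y] [∀ s, TopologicalSpace (D s)] {gr : S → ℕ} (Φ : Y → (∀ s, D s) → (∀ s, D s))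
    (hc : ∀ s y0 x0, ∃ T : Finset S, (∀ t ∈ T, gr t < gr s) ∧
      ∀ᶠ y in 𝓝 y0, ∀ x, (∀ t ∈ T, x t = x0 t) → Φ y x s = Φ y0 x0 s)
    (x : Y → ∀ s, D s) (hx : ∀ y, Φ y (x y) = x y) : Continuous x := by
  have key : ∀ n s, gr s < n → ∀ y0, ∀ᶠ y in 𝓝 y0, x y s = x y0 s := by
    intro n
    induction n with
    | zero => intro s hs; omega
    | succ n ih =>
      intro s hs y0
      obtain ⟨T, hT, hev⟩ := hc s y0 (x y0)
      have h1 : ∀ᶠ y in 𝓝 y0, ∀ t ∈ T, x y t = x y0 t :=
        (Filter.eventually_all_finset T).2 fun t ht => ih t (by have := hT t ht; omega) y0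
      filter_upwards [h1, hev] with y hy1 hy2
      calc x y s = Φ y (x y) s := congrFun (hx y).symm s
        _ = Φ y0 (x y0) s := hy2 _ hy1
        _ = x y0 s := congrFun (hx y0) s
  refine continuous_pi fun s => continuous_iff_continuousAt.2 fun y0 => ?_
  have h := key (gr s + 1) s (by omega) y0
  exact tendsto_const_nhds.congr' (h.mono fun _ hy => hy.symm)

end Fix

/-- Borel determinacy for games in which the two players reveal families of values graded by `ℕ` -/
theorem causalItems (hC : BD.StmtCausal) {IG IA : Type} (grG : IG → ℕ) (grA : IA → ℕ)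
    (fG : ∀ n, {τ | grG τ = n}.Finite) (fA : ∀ n, {τ | grA τ = n}.Finite)
    (DG : IG → Type) (DA : IA → Type) [∀ τ, Countable (DG τ)] [∀ τ, Nonempty (DG τ)]
    [∀ τ, TopologicalSpace (DG τ)] [∀ τ, DiscreteTopology (DG τ)] [∀ τ, Countable (DA τ)]
    [∀ τ, Nonempty (DA τ)] [∀ τ, TopologicalSpace (DA τ)] [∀ τ, DiscreteTopology (DA τ)]
    (W : Set ((∀ τ, DG τ) × (∀ τ, DA τ))) (hW : @MeasurableSet _ (borel _) W) :
    (∃ F : (∀ τ, DG τ) → (∀ τ, DA τ),
        (∀ τ p p', (∀ σ, grG σ ≤ grA τ → p σ = p' σ) → F p τ = F p' τ) ∧ ∀ p, (p, F p) ∈ W) ∨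
    (∃ H : (∀ τ, DA τ) → (∀ τ, DG τ),
        (∀ τ q q', (∀ σ, grA σ < grG τ → q σ = q' σ) → H q τ = H q' τ) ∧ ∀ q, (H q, q) ∉ W) := by
  classical
  let M : ℕ → Type := fun n => ∀ τ : {τ // grG τ = n}, DG τ
  let N : ℕ → Type := fun n => ∀ τ : {τ // grA τ = n}, DA τ
  have fG' : ∀ n, Finite {τ // grG τ = n} := fun n => (fG n).to_subtype
  have fA' : ∀ n, Finite {τ // grA τ = n} := fun n => (fA n).to_subtype
  have : ∀ n, Countable (M n) := fun n => inferInstanceAs (Countable (∀ τ : {τ // grG τ = n}, DG τ))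
  have : ∀ n, Countable (N n) := fun n => inferInstanceAs (Countable (∀ τ : {τ // grA τ = n}, DA τ))
  have : ∀ n, Nonempty (M n) := fun n => inferInstanceAs (Nonempty (∀ τ : {τ // grG τ = n}, DG τ))
  have : ∀ n, Nonempty (N n) := fun n => inferInstanceAs (Nonempty (∀ τ : {τ // grA τ = n}, DA τ))
  let : ∀ n, TopologicalSpace (M n) := fun n =>
    inferInstanceAs (TopologicalSpace (∀ τ : {τ // grG τ = n}, DG τ))
  let : ∀ n, TopologicalSpace (N n) := fun n =>
    inferInstanceAs (TopologicalSpace (∀ τ : {τ // grA τ = n}, DA τ))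
  have : ∀ n, DiscreteTopology (M n) := fun n =>
    inferInstanceAs (DiscreteTopology (∀ τ : {τ // grG τ = n}, DG τ))
  have : ∀ n, DiscreteTopology (N n) := fun n =>
    inferInstanceAs (DiscreteTopology (∀ τ : {τ // grA τ = n}, DA τ))
  let eG : (∀ n, M n) → (∀ τ, DG τ) := fun a τ => a (grG τ) ⟨τ, rfl⟩
  let eA : (∀ n, N n) → (∀ τ, DA τ) := fun a τ => a (grA τ) ⟨τ, rfl⟩
  let iG : (∀ τ, DG τ) → (∀ n, M n) := fun p n τ => p τ
  let iA : (∀ τ, DA τ) → (∀ n, N n) := fun p n τ => p τ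
  have cG : Continuous eG := continuous_pi fun τ =>
    (continuous_apply (⟨τ, rfl⟩ : {σ // grG σ = grG τ})).comp (continuous_apply (grG τ))
  have cA : Continuous eA := continuous_pi fun τ =>
    (continuous_apply (⟨τ, rfl⟩ : {σ // grA σ = grA τ})).comp (continuous_apply (grA τ))
  let W' : Set ((∀ n, M n) × (∀ n, N n)) := {w | (eG w.1, eA w.2) ∈ W}
  have hW' : @MeasurableSet _ (borel _) W' := by
    let := borel ((∀ τ, DG τ) × (∀ τ, DA τ))
    let := borel ((∀ n, M n) × (∀ n, N n))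
    have : BorelSpace ((∀ τ, DG τ) × (∀ τ, DA τ)) := ⟨rfl⟩
    have : BorelSpace ((∀ n, M n) × (∀ n, N n)) := ⟨rfl⟩
    have hcont : Continuous fun w : (∀ n, M n) × (∀ n, N n) => (eG w.1, eA w.2) :=
      (cG.comp continuous_fst).prodMk (cA.comp continuous_snd)
    exact hcont.measurable hW
  rcases hC M N W' hW' with ⟨F, hF1, hF2⟩ | ⟨H, hH1, hH2⟩
  · left
    refine ⟨fun p => eA (F (iG p)), fun τ p p' h => ?_, fun p => ?_⟩
    · have h1 := hF1 (grA τ) (iG p) (iG p') fun i hi => by
        funext σ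
        exact h σ (by rw [σ.2]; exact hi)
      exact congrFun h1 ⟨τ, rfl⟩
    · have := hF2 (iG p)
      exact this
  · right
    refine ⟨fun q => eG (H (iA q)), fun τ q q' h => ?_, fun q => ?_⟩
    · have h1 := hH1 (grG τ) (iA q) (iA q') fun i hi => by
        funext σ
        exact h σ (by rw [σ.2]; exact hi)
      exact congrFun h1 ⟨τ, rfl⟩
    · have := hH2 (iA q)
      exact this

end Pool.Agent.LCL89.ML
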