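import Pool.Agent.LCL89.ML.Defs
import Pool.Agent.LCL89.ML.Tools

set_option autoImplicit false

/-!
# The game lemma: the game part
-/

namespace Pool.Agent.LCL89.ML

open Topology Set Monoid

section Items

variable {Idx G : Type} [Group G]

/-- the grade of an item -/
def It.gr (e : Idx → ℕ) (d : G → ℕ) : {b : Bool} → It Idx G b → ℕ
  | _, .dig i => e i
  | _, .subG g a => a.gr e d + d g + 1
  | _, .o => 0
  | _, .subA _ b => b.gr e d + 1

theorem countable_val (D : Idx → Type) [∀ i, Countable (D i)] :
    ∀ {b : Bool} (i : It Idx G b), Countable (i.val D)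
  | _, .dig i => inferInstanceAs (Countable (D i))
  | _, .subG _ a => countable_val D a
  | _, .o => inferInstanceAs (Countable (ZMod 3))
  | _, .subA _ b => countable_val D b

theorem nonempty_val (D : Idx → Type) [∀ i, Nonempty (D i)] :
    ∀ {b : Bool} (i : It Idx G b), Nonempty (i.val D)
  | _, .dig i => inferInstanceAs (Nonempty (D i))
  | _, .subG _ a => nonempty_val D a
  | _, .o => inferInstanceAs (Nonempty (ZMod 3))
  | _, .subA _ b => nonempty_val D b

theorem finite_gr (e : Idx → ℕ) (he : Function.Injective e) (d : G → ℕ)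
    (hd : Function.Injective d) :
    ∀ n (b : Bool), {τ : It Idx G b | τ.gr e d = n}.Finite := by
  intro n
  induction n using Nat.strong_induction_on with
  | _ n ih =>
    intro b
    cases b with
    | true =>
      have h1 : {i : Idx | e i = n}.Finite :=
        Set.Subsingleton.finite fun i hi j hj => he (hi.trans hj.symm)
      have h2 : {g : {g : G // g ≠ 1} | d g < n}.Finite := by
        have h3 : (d ⁻¹' Set.Iio n).Finite := (Set.finite_Iio n).preimage hd.injOn
        exact h3.preimage Subtype.val_injective.injOn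
      refine Set.Finite.subset ((h1.image It.dig).union
        (h2.biUnion (t := fun g => (It.subG g) '' {a : It Idx G false | a.gr e d = n - d g - 1})
          fun g hg => (ih (n - d g - 1) (by simp only [Set.mem_setOf_eq] at hg; omega) false).image _)) ?_
      intro τ hτ
      cases τ with
      | dig i => exact Or.inl ⟨i, hτ, rfl⟩
      | subG g a =>
        right
        simp only [Set.mem_setOf_eq, It.gr] at hτ
        simp only [Set.mem_setOf_eq, Set.mem_iUnion]
        exact ⟨g, by omega, a, by simp only [Set.mem_setOf_eq]; omega, rfl⟩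
    | false =>
      by_cases hn : n = 0
      · refine Set.Finite.subset (Set.finite_singleton It.o) ?_
        intro τ hτ
        cases τ with
        | o => rfl
        | subA j b =>
          simp only [Set.mem_setOf_eq, It.gr] at hτ
          omega
      · refine Set.Finite.subset ((Set.finite_singleton It.o).union
          (Set.finite_iUnion (f := fun j : {j : ZMod 3 // j ≠ 0} =>
            (It.subA j) '' {b : It Idx G true | b.gr e d = n - 1})
            fun j => (ih (n - 1) (by omega) true).image _)) ?_
        intro τ hτ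
        cases τ with
        | o => exact Or.inl rfl
        | subA j b =>
          right
          simp only [Set.mem_setOf_eq, It.gr] at hτ
          simp only [Set.mem_iUnion]
          exact ⟨j, b, by simp only [Set.mem_setOf_eq]; omega, rfl⟩

theorem finite_gr_le (e : Idx → ℕ) (he : Function.Injective e) (d : G → ℕ)
    (hd : Function.Injective d) (n : ℕ) (b : Bool) : {τ : It Idx G b | τ.gr e d ≤ n}.Finite := by
  refine Set.Finite.subset ((Set.finite_Iic n).biUnion (t := fun m =>
    {τ : It Idx G b | τ.gr e d = m}) fun m _ => finite_gr e he d hd m b) ?_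
  intro τ hτ
  simp only [Set.mem_iUnion]
  exact ⟨_, hτ, rfl⟩

end Items

section Gert

variable {Idx G : Type} [Group G] (D : Idx → Type)

/-- Alice's part assembled from the table `u`, seen from `j` -/
def qq (u : ∀ s : ZMod 3 × It Idx G true, s.2.val D) (j : ZMod 3) : PP G D false :=
  fun i => match i with
    | .o => -j
    | .subA j' b => u (j + j', b)

/-- Gert's part assembled from the table `u`, seen from `g` -/
def pp [MulAction G (∀ i, D i)] (y : ∀ i, D i) (u : ∀ s : G × It Idx G false, s.2.val D) (g : G) :
    PP G D true :=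
  fun i => match i with
    | .dig i => (g⁻¹ • y) i
    | .subG g' a => u (g * g', a)

/-- Gert has no winning strategy -/
theorem gert [MulAction G (∀ i, D i)] [∀ i, Nonempty (D i)] (e : Idx → ℕ) (d : G → ℕ)
    (W : Set (XX G D)) (hW : ∀ x : XX G D, ∃ a : A3, (Coprod.inl a : Coprod A3 G) • x ∈ W)
    (H : PP G D false → PP G D true)
    (hH : ∀ (τ : It Idx G true) (q q' : PP G D false),
      (∀ σ : It Idx G false, σ.gr e d < τ.gr e d → q σ = q' σ) → H q τ = H q' τ)
    (hHW : ∀ q, (H q, q) ∉ W) : False := by
  haveI : ∀ s : ZMod 3 × It Idx G true, Nonempty (s.2.val D) := fun s => nonempty_val D s.2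
  have hlow : Lower (D := fun s : ZMod 3 × It Idx G true => s.2.val D) (fun s => s.2.gr e d)
      (fun u s => H (qq D u s.1) s.2) := by
    intro s u u' h
    refine hH s.2 _ _ fun σ hσ => ?_
    cases σ with
    | o => rfl
    | subA j b =>
      simp only [It.gr] at hσ
      exact h (s.1 + j, b) (by show b.gr e d < s.2.gr e d; omega)
  obtain ⟨u, hu⟩ := hlow.exists_fix
  have hu' : ∀ j, (fun b : It Idx G true => u (j, b)) = H (qq D u j) := fun j => by
    funext b
    exact (congrFun hu (j, b)).symm
  obtain ⟨a, ha⟩ := hW (fun b => u (0, b), qq D u 0)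
  set k : ZMod 3 := a.toAdd with hk
  have key : (Coprod.inl a : Coprod A3 G) • ((fun b => u (0, b), qq D u 0) : XX G D) =
      (H (qq D u (-k)), qq D u (-k)) := by
    show (Coprod.lift (homA G D) (homG D) (Coprod.inl a)) _ = _
    rw [Coprod.lift_apply_inl]
    show (viewA D).symm _ = _
    rw [← hu']
    refine Prod.ext (funext fun b => ?_) (funext fun i => ?_)
    · show (if h : (0 : ZMod 3) - a.toAdd = 0 then fun b => u (0, b) else
        fun b => qq D u 0 (.subA ⟨_, h⟩ b)) b = u (-k, b)
      by_cases h : (0 : ZMod 3) - a.toAdd = 0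
      · rw [dif_pos h]
        have : -k = 0 := by rw [← h]; simp [hk]
        rw [this]
      · rw [dif_neg h]
        show u (0 + (0 - a.toAdd), b) = _
        have : (0 : ZMod 3) + (0 - a.toAdd) = -k := by rw [hk]; abel
        rw [this]
    · cases i with
      | o =>
        show (-0 : ZMod 3) + a.toAdd = - -k
        rw [hk]; simp
      | subA j b =>
        show (if h : (j : ZMod 3) - a.toAdd = 0 then fun b => u (0, b) else
          fun b => qq D u 0 (.subA ⟨_, h⟩ b)) b = u (-k + j, b)
        by_cases h : (j : ZMod 3) - a.toAdd = 0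
        · rw [dif_pos h]
          have : -k + (j : ZMod 3) = 0 := by
            calc -k + (j : ZMod 3) = (j : ZMod 3) - a.toAdd := by rw [hk]; abel
              _ = 0 := h
          rw [this]
        · rw [dif_neg h]
          show u (0 + (j - a.toAdd), b) = _
          have : (0 : ZMod 3) + (j - a.toAdd) = -k + j := by rw [hk]; abel
          rw [this]
  rw [key] at ha
  exact hHW _ ha

end Gert

section Alice

variable {Idx G : Type} [Group G] (D : Idx → Type)

/-- the equation solved by Alice's tables -/
def alice [MulAction G (∀ i, D i)] (F : ZMod 3 → PP G D true → PP G D false)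
    (ι : (∀ i, D i) → ZMod 3) (y : ∀ i, D i) (u : ∀ s : G × It Idx G false, s.2.val D) :
    ∀ s : G × It Idx G false, s.2.val D :=
  fun s => F (ι (s.1⁻¹ • y)) (pp D y u s.1) s.2

theorem alice_lower [MulAction G (∀ i, D i)] (e : Idx → ℕ) (d : G → ℕ)
    (F : ZMod 3 → PP G D true → PP G D false)
    (hF : ∀ (i : ZMod 3) (τ : It Idx G false) (p p' : PP G D true),
      (∀ σ : It Idx G true, σ.gr e d ≤ τ.gr e d → p σ = p' σ) → F i p τ = F i p' τ)
    (ι : (∀ i, D i) → ZMod 3) (y : ∀ i, D i) :
    Lower (D := fun s : G × It Idx G false => s.2.val D) (fun s => s.2.gr e d)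
      (alice D F ι y) := by
  intro s u u' h
  refine hF _ s.2 _ _ fun σ hσ => ?_
  cases σ with
  | dig i => rfl
  | subG g' a =>
    simp only [It.gr] at hσ
    exact h (s.1 * g', a) (by show a.gr e d < s.2.gr e d; omega)

theorem alice_main [MulAction G (∀ i, D i)] [∀ i, Nonempty (D i)] [∀ i, TopologicalSpace (D i)]
    [∀ i, DiscreteTopology (D i)] (hcont : ∀ g : G, Continuous fun y : (∀ i, D i) => g • y)
    (e : Idx → ℕ) (he : Function.Injective e) (d : G → ℕ) (hd : Function.Injective d)
    (W : ZMod 3 → Set (XX G D))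
    (F : ZMod 3 → PP G D true → PP G D false)
    (hF : ∀ (i : ZMod 3) (τ : It Idx G false) (p p' : PP G D true),
      (∀ σ : It Idx G true, σ.gr e d ≤ τ.gr e d → p σ = p' σ) → F i p τ = F i p' τ)
    (hFW : ∀ i p, (p, F i p) ∈ W i)
    (ι : (∀ i, D i) → ZMod 3) (hι : Continuous ι) :
    ∃ φ : (∀ i, D i) → XX G D, Continuous φ ∧
      (∀ (g : G) (y : ∀ i, D i), φ (g • y) = (Coprod.inr g : Coprod A3 G) • φ y) ∧
      ∀ y, φ y ∈ W (ι y) := by
  classical
  have hne : ∀ s : G × It Idx G false, Nonempty (s.2.val D) := fun s => nonempty_val D s.2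
  have hlow := alice_lower D e d F hF ι
  choose u hu using fun y => (hlow y).exists_fix
  -- continuity of the solution
  have hucont : Continuous u := by
    refine fix_continuous (alice D F ι) (gr := fun s => s.2.gr e d) ?_ u hu
    intro s y0 u0
    have hfin : {σ : It Idx G true | σ.gr e d ≤ s.2.gr e d}.Finite := finite_gr_le e he d hd _ _
    set T0 : Set (G × It Idx G false) :=
      {t | ∃ (g' : {g : G // g ≠ 1}) (a : It Idx G false), t = (s.1 * g', a) ∧
        a.gr e d + d g' + 1 ≤ s.2.gr e d} with hT0
    have hT0fin : T0.Finite := by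
      refine (hfin.image (fun σ : It Idx G true => match σ with
        | .dig _ => ((1, .o) : G × It Idx G false)
        | .subG g' a => (s.1 * g', a))).subset ?_
      rintro t ⟨g', a, rfl, h⟩
      exact ⟨.subG g' a, h, rfl⟩
    refine ⟨hT0fin.toFinset, fun t ht => ?_, ?_⟩
    · rw [Set.Finite.mem_toFinset] at ht
      obtain ⟨g', a, rfl, h⟩ := ht
      show a.gr e d < s.2.gr e d
      omega
    · have hI : {i : Idx | e i ≤ s.2.gr e d}.Finite :=
        (Set.finite_Iic (s.2.gr e d)).preimage he.injOn
      have h1 : ∀ᶠ y in 𝓝 y0, ι (s.1⁻¹ • y) = ι (s.1⁻¹ • y0) := by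
        have hc : Continuous fun y : (∀ i, D i) => ι (s.1⁻¹ • y) := hι.comp (hcont _)
        have := (hc.tendsto y0)
        rw [nhds_discrete (ZMod 3)] at this
        exact Filter.tendsto_pure.1 this
      have h2 : ∀ᶠ y in 𝓝 y0, ∀ i ∈ hI.toFinset, (s.1⁻¹ • y) i = (s.1⁻¹ • y0) i := by
        refine (Filter.eventually_all_finset _).2 fun i _ => ?_
        have hc : Continuous fun y : (∀ i, D i) => (s.1⁻¹ • y) i :=
          (continuous_apply i).comp (hcont _)
        have := (hc.tendsto y0)
        rw [nhds_discrete (D i)] at this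
        exact Filter.tendsto_pure.1 this
      filter_upwards [h1, h2] with y hy1 hy2 v hv
      show F (ι (s.1⁻¹ • y)) (pp D y v s.1) s.2 = F (ι (s.1⁻¹ • y0)) (pp D y0 u0 s.1) s.2
      rw [hy1]
      refine hF _ s.2 _ _ fun σ hσ => ?_
      cases σ with
      | dig i => exact hy2 i (by rw [Set.Finite.mem_toFinset]; exact hσ)
      | subG g' a =>
        exact hv (s.1 * g', a) (by rw [Set.Finite.mem_toFinset]; exact ⟨g', a, rfl, hσ⟩)
  -- the map
  set φ : (∀ i, D i) → XX G D := fun y => (pp D y (u y) 1, fun a => u y (1, a)) with hφ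
  have hview : ∀ y, (viewG D) (φ y) = (y, fun g a => u y (g, a)) := by
    intro y
    refine Prod.ext (funext fun i => ?_) (funext fun g => ?_)
    · show ((1 : G)⁻¹ • y) i = y i
      rw [inv_one, one_smul]
    · show (if h : g = 1 then (φ y).2 else fun a => (φ y).1 (.subG ⟨g, h⟩ a)) = _
      by_cases h : g = 1
      · subst h
        simp [hφ]
      · rw [dif_neg h]
        funext a
        show u y (1 * g, a) = _
        rw [one_mul]
  refine ⟨φ, ?_, ?_, ?_⟩
  · have hloc : ∀ (s : G × It Idx G false), Continuous fun y => u y s := fun s =>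
      (continuous_apply s).comp hucont
    refine Continuous.prodMk (continuous_pi fun τ => ?_) (continuous_pi fun a => hloc (1, a))
    cases τ with
    | dig i =>
      refine continuous_iff_continuousAt.2 fun y0 => ?_
      have hc : Continuous fun y : (∀ i, D i) => ((1 : G)⁻¹ • y) i :=
        (continuous_apply i).comp (hcont _)
      have h0 := (hc.tendsto y0)
      rw [nhds_discrete (D i)] at h0
      have h1 : ∀ᶠ y in 𝓝 y0, ((1 : G)⁻¹ • y) i = ((1 : G)⁻¹ • y0) i := Filter.tendsto_pure.1 h0
      exact tendsto_const_nhds.congr' (h1.mono fun y hy => hy.symm)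
    | subG g' a => exact hloc (1 * g', a)
  · intro g y
    apply (viewG D).injective
    have hact : (Coprod.inr g : Coprod A3 G) • φ y =
        (viewG D).symm (g • (viewG D (φ y)).1, fun h => (viewG D (φ y)).2 (g⁻¹ * h)) := by
      show (Coprod.lift (homA G D) (homG D) (Coprod.inr g)) _ = _
      rw [Coprod.lift_apply_inr]
      rfl
    rw [hact, Equiv.apply_symm_apply, hview, hview]
    refine Prod.ext rfl ?_
    -- uniqueness of the solution
    have huniq : u (g • y) = fun s : G × It Idx G false => u y (g⁻¹ * s.1, s.2) := by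
      refine (hlow (g • y)).fix_unique (hu _) ?_
      funext s
      have h1 := congrFun (hu y) (g⁻¹ * s.1, s.2)
      refine Eq.trans ?_ h1
      show F (ι (s.1⁻¹ • g • y)) (pp D (g • y) (fun s : G × It Idx G false => u y (g⁻¹ * s.1, s.2)) s.1) s.2 =
        F (ι ((g⁻¹ * s.1)⁻¹ • y)) (pp D y (u y) (g⁻¹ * s.1)) s.2
      have h2 : s.1⁻¹ • g • y = (g⁻¹ * s.1)⁻¹ • y := by
        rw [smul_smul, mul_inv_rev, inv_inv]
      have h3 : pp D (g • y) (fun s : G × It Idx G false => u y (g⁻¹ * s.1, s.2)) s.1 = pp D y (u y) (g⁻¹ * s.1) := by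
        funext σ
        cases σ with
        | dig i =>
          show (s.1⁻¹ • g • y) i = ((g⁻¹ * s.1)⁻¹ • y) i
          rw [h2]
        | subG g' a =>
          show u y (g⁻¹ * (s.1 * g'), a) = u y (g⁻¹ * s.1 * g', a)
          rw [mul_assoc]
      rw [h2, h3]
    funext h a
    exact congrFun huniq (h, a)
  · intro y
    have h1 : (fun a : It Idx G false => u y (1, a)) = F (ι y) (pp D y (u y) 1) := by
      funext a
      have h2 := congrFun (hu y) (1, a)
      refine h2.symm.trans ?_
      show F (ι ((1 : G)⁻¹ • y)) (pp D y (u y) 1) a = _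
      rw [inv_one, one_smul]
    show (pp D y (u y) 1, fun a => u y (1, a)) ∈ W (ι y)
    rw [h1]
    exact hFW _ _

end Alice

theorem mlGame : BD.StmtCausal → StmtMLGame := by
  intro hC Idx _ D _ _ _ _ G _ _ _ hcont W hW hne ι hι
  obtain ⟨e, he⟩ := exists_injective_nat Idx
  obtain ⟨d, hd⟩ := exists_injective_nat G
  have c1 : ∀ i : It Idx G true, Countable (i.val D) := fun i => countable_val D i
  have c2 : ∀ i : It Idx G false, Countable (i.val D) := fun i => countable_val D i
  have n1 : ∀ i : It Idx G true, Nonempty (i.val D) := fun i => nonempty_val D i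
  have n2 : ∀ i : It Idx G false, Nonempty (i.val D) := fun i => nonempty_val D i
  have key : ∀ i : ZMod 3, ∃ F : PP G D true → PP G D false,
      (∀ (τ : It Idx G false) (p p' : PP G D true),
        (∀ σ : It Idx G true, σ.gr e d ≤ τ.gr e d → p σ = p' σ) → F p τ = F p' τ) ∧
      ∀ p, (p, F p) ∈ W i := by
    intro i
    rcases causalItems hC (IG := It Idx G true) (IA := It Idx G false)
      (fun τ => τ.gr e d) (fun τ => τ.gr e d) (fun n => finite_gr e he d hd n true)
      (fun n => finite_gr e he d hd n false) (fun i => i.val D) (fun i => i.val D) (W i) (hW i)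
      with ⟨F, hF1, hF2⟩ | ⟨H, hH1, hH2⟩
    · exact ⟨F, hF1, hF2⟩
    · exact (gert D e d (W i) (hne i) H hH1 hH2).elim
  choose F hF1 hF2 using key
  exact alice_main D hcont e he d hd W F hF1 hF2 ι hι

end Pool.Agent.LCL89.ML
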