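import Pool.Agent.LCL89.ML.Defs

set_option autoImplicit false

/-!
# The game lemma: topology of the space, continuity and freeness of the actions
-/

namespace Pool.Agent.LCL89.ML

open Monoid TopologicalSpace

namespace SpaceMod

/-- encoding of items by lists -/
def enc {Idx G : Type} [Group G] : {b : Bool} → It Idx G b →
    List (Idx ⊕ {g : G // g ≠ 1} ⊕ Unit ⊕ {j : ZMod 3 // j ≠ 0})
  | _, .dig i => [Sum.inl i]
  | _, .subG g a => Sum.inr (Sum.inl g) :: enc a
  | _, .o => [Sum.inr (Sum.inr (Sum.inl ()))]
  | _, .subA j b => Sum.inr (Sum.inr (Sum.inr j)) :: enc b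

lemma enc_inj {Idx G : Type} [Group G] {b : Bool} (i : It Idx G b) :
    ∀ j : It Idx G b, enc i = enc j → i = j := by
  induction i with
  | dig i =>
    intro j h
    cases j with
    | dig j => simp [enc] at h; rw [h]
    | subG g a => simp [enc] at h
  | subG g a ih =>
    intro j h
    cases j with
    | dig j => simp [enc] at h
    | subG g' a' =>
      simp only [enc, List.cons.injEq, Sum.inr.injEq, Sum.inl.injEq] at h
      rw [h.1, ih a' h.2]
  | o =>
    intro j h
    cases j with
    | o => rfl
    | subA g a => simp [enc] at h
  | subA g a ih =>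
    intro j h
    cases j with
    | o => simp [enc] at h
    | subA g' a' =>
      simp only [enc, List.cons.injEq, Sum.inr.injEq] at h
      rw [h.1, ih a' h.2]

instance countable_It {Idx G : Type} [Group G] [Countable Idx] [Countable G] (b : Bool) :
    Countable (It Idx G b) := by
  have : Countable (ZMod 3) := inferInstanceAs (Countable (Fin 3))
  exact Function.Injective.countable (f := enc) (fun i j h => enc_inj i j h)

lemma countable_val {Idx G : Type} [Group G] (D : Idx → Type) [∀ i, Countable (D i)] {b : Bool}
    (i : It Idx G b) : Countable (i.val D) := by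
  induction i with
  | dig i => exact inferInstanceAs (Countable (D i))
  | subG g a ih => exact ih
  | o => exact inferInstanceAs (Countable (Fin 3))
  | subA g a ih => exact ih

lemma zeroDim_pi {ι : Type} (E : ι → Type) [∀ i, TopologicalSpace (E i)]
    [∀ i, DiscreteTopology (E i)] : ZeroDim (∀ i, E i) := by
  unfold ZeroDim
  refine isTopologicalBasis_of_isOpen_of_nhds (fun u hu => hu.isOpen) ?_
  intro x u hx hu
  obtain ⟨I, V, hV, hsub⟩ := isOpen_pi_iff.1 hu x hx
  refine ⟨Set.pi (I : Set ι) V, ?_, fun i hi => (hV i hi).2, hsub⟩
  constructor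
  · exact isClosed_set_pi fun i _ => isClosed_discrete _
  · exact isOpen_set_pi I.finite_toSet fun i _ => isOpen_discrete _

lemma zeroDim_prod {X Y : Type} [TopologicalSpace X] [TopologicalSpace Y] (hX : ZeroDim X)
    (hY : ZeroDim Y) : ZeroDim (X × Y) := by
  unfold ZeroDim at *
  refine (hX.prod hY).of_isOpen_of_subset (fun u hu => hu.isOpen) ?_
  rintro _ ⟨u, hu, v, hv, rfl⟩
  exact IsClopen.prod hu hv

section

variable {Idx G : Type} [Group G] (D : Idx → Type)

lemma continuous_viewA (j : ZMod 3) : Continuous fun x : XX G D => (viewA D x).2 j := by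
  by_cases h : j = 0
  · have : (fun x : XX G D => (viewA D x).2 j) = fun x => x.1 := by
      funext x; simp [viewA, h]
    rw [this]; exact continuous_fst
  · have : (fun x : XX G D => (viewA D x).2 j) = fun x b => x.2 (.subA ⟨j, h⟩ b) := by
      funext x
      exact dif_neg h
    rw [this]
    exact continuous_pi fun b => (continuous_apply _).comp continuous_snd

lemma continuous_viewG (g : G) : Continuous fun x : XX G D => (viewG D x).2 g := by
  by_cases h : g = 1
  · have : (fun x : XX G D => (viewG D x).2 g) = fun x => x.2 := by
      funext x; simp [viewG, h]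
    rw [this]; exact continuous_snd
  · have : (fun x : XX G D => (viewG D x).2 g) = fun x a => x.1 (.subG ⟨g, h⟩ a) := by
      funext x
      exact dif_neg h
    rw [this]
    exact continuous_pi fun b => (continuous_apply _).comp continuous_fst

lemma continuous_homA (k : A3) : Continuous fun x : XX G D => homA G D k x := by
  refine Continuous.prodMk ?_ ?_
  · exact continuous_viewA D (0 - k.toAdd)
  · refine continuous_pi fun i => ?_
    cases i with
    | o =>
      have h1 : Continuous fun x : XX G D => x.2 .o := (continuous_apply _).comp continuous_snd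
      exact (continuous_of_discreteTopology (α := (It.o : It Idx G false).val D)
        (β := (It.o : It Idx G false).val D) (f := fun v : ZMod 3 => v + k.toAdd)).comp h1
    | subA j b => exact (continuous_apply b).comp (continuous_viewA D ((j : ZMod 3) - k.toAdd))

/-- the digits of Gert's part -/
def digY (x : XX G D) : ∀ i, D i := fun i => x.1 (.dig i)

lemma continuous_digY [∀ i, TopologicalSpace (D i)] [∀ i, DiscreteTopology (D i)] :
    Continuous (digY D : XX G D → ∀ i, D i) := by
  refine continuous_pi fun i => ?_
  have h2 : Continuous fun x : XX G D => x.1 (.dig i) :=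
    (continuous_apply _).comp continuous_fst
  exact (continuous_of_discreteTopology (α := (It.dig i : It Idx G true).val D)
    (β := D i) (f := fun v : D i => v)).comp h2

lemma continuous_homG [∀ i, TopologicalSpace (D i)] [∀ i, DiscreteTopology (D i)]
    [MulAction G (∀ i, D i)] (hG : ∀ g : G, Continuous fun y : (∀ i, D i) => g • y) (h : G) :
    Continuous fun x : XX G D => homG D h x := by
  refine Continuous.prodMk ?_ ?_
  · refine continuous_pi fun i => ?_
    cases i with
    | dig i =>
      have h3 : Continuous fun x : XX G D => (h • digY D x) i :=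
        (continuous_apply i).comp ((hG h).comp (continuous_digY D))
      exact (continuous_of_discreteTopology (α := D i) (β := (It.dig i : It Idx G true).val D)
          (f := fun v : D i => v)).comp h3
    | subG g a => exact (continuous_apply a).comp (continuous_viewG D (h⁻¹ * (g : G)))
  · exact continuous_viewG D (h⁻¹ * 1)

lemma smul_inl [MulAction G (∀ i, D i)] (a : A3) (x : XX G D) :
    (Coprod.inl a : Coprod A3 G) • x = homA G D a x := by
  change Coprod.lift (homA G D) (homG D) (Coprod.inl a) x = _
  rw [Coprod.lift_apply_inl]

lemma smul_inr [MulAction G (∀ i, D i)] (g : G) (x : XX G D) :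
    (Coprod.inr g : Coprod A3 G) • x = homG D g x := by
  change Coprod.lift (homA G D) (homG D) (Coprod.inr g) x = _
  rw [Coprod.lift_apply_inr]

end

end SpaceMod

open SpaceMod in
/-- topology and freeness -/
theorem mlSpace : StmtMLSpace := by
  intro Idx _ D _ _ _ _ G _ _ _ hG
  have : ∀ (b : Bool) (i : It Idx G b), Countable (i.val D) := fun b i => countable_val D i
  refine ⟨inferInstance, ?_, ?_, ?_, ?_⟩
  · exact zeroDim_prod (zeroDim_pi _) (zeroDim_pi _)
  · intro γ
    induction γ using Coprod.induction_on with
    | inl a =>
      simp only [smul_inl]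
      exact continuous_homA D a
    | inr g =>
      simp only [smul_inr]
      exact continuous_homG D hG g
    | mul γ δ h1 h2 =>
      simp only [mul_smul]
      exact h1.comp h2
  · intro a x h
    rw [smul_inl] at h
    have h1 : viewA D (homA G D a x) = viewA D x := by rw [h]
    have h2 : (viewA D x).1 + a.toAdd = (viewA D x).1 := by
      have h3 : viewA D (homA G D a x) =
          ((viewA D x).1 + a.toAdd, fun j => (viewA D x).2 (j - a.toAdd)) :=
        Equiv.apply_symm_apply _ _
      rw [h3] at h1
      exact congrArg Prod.fst h1
    have h4 : a.toAdd = 0 := by simpa using h2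
    exact h4
  · intro hf g x h
    rw [smul_inr] at h
    have h1 : viewG D (homG D g x) = viewG D x := by rw [h]
    have h3 : viewG D (homG D g x) =
        (g • (viewG D x).1, fun g' => (viewG D x).2 (g⁻¹ * g')) :=
      Equiv.apply_symm_apply _ _
    rw [h3] at h1
    exact hf g _ (congrArg Prod.fst h1)

/-- the form used in the assembly, from the space part and the game part -/
theorem ml_of (hS : StmtMLSpace) (hG : StmtMLGame) : StmtML := by
  intro Idx _ D _ _ _ _ Y _ e G _ _ _ hcont hfree
  let act : MulAction G (∀ i, D i) :=
    { smul := fun g y => e (g • e.symm y)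
      one_smul := fun y => by
        change e ((1 : G) • e.symm y) = y
        rw [one_smul, Homeomorph.apply_symm_apply]
      mul_smul := fun g h y => by
        change e ((g * h) • e.symm y) = e (g • e.symm (e (h • e.symm y)))
        rw [Homeomorph.symm_apply_apply, mul_smul] }
  have smul_def : ∀ (g : G) (y : ∀ i, D i), g • y = e (g • e.symm y) := fun _ _ => rfl
  have hcont' : ∀ g : G, Continuous fun y : (∀ i, D i) => g • y := fun g =>
    e.continuous.comp ((hcont g).comp e.symm.continuous)
  have hfree' : FreeAct G (∀ i, D i) := by
    intro g y h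
    rw [smul_def] at h
    apply hfree g (e.symm y)
    apply e.injective
    rw [h, Homeomorph.apply_symm_apply]
  obtain ⟨h1, h2, h3, h4, h5⟩ := hS Idx D G hcont'
  refine ⟨XX G D, inferInstance, h1, inferInstance, h2, h3, h4, h5 hfree', ?_⟩
  intro W hW hcov ι hι
  obtain ⟨φ, hφ1, hφ2, hφ3⟩ := hG Idx D G hcont' W hW hcov (fun y => ι (e.symm y))
    (hι.comp e.symm.continuous)
  refine ⟨fun y => φ (e y), hφ1.comp e.continuous, ?_, ?_⟩
  · intro g y
    rw [← hφ2, smul_def, Homeomorph.symm_apply_apply]
  · intro y
    have := hφ3 (e y)
    rwa [Homeomorph.symm_apply_apply] at this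

end Pool.Agent.LCL89.ML
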